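import Mathlib

/-!
# Polynomial self-maps of affine space over a finite field: finite orbits
-/

set_option autoImplicit false

namespace Pool.Agent.X296

open MvPolynomial

universe u

variable {F : Type u} [Field F] {n : ℕ}

/-- The action of a tuple of polynomials over `F` on the geometric points of affine space. -/
noncomputable def act (T : Fin n → MvPolynomial (Fin n) F) (x : Fin n → AlgebraicClosure F) :
    Fin n → AlgebraicClosure F :=
  fun i => aeval x (T i)

/-- Over a finite field every orbit is finite. -/
theorem orbit_finite [Finite F] (T : Fin n → MvPolynomial (Fin n) F)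
    (x : Fin n → AlgebraicClosure F) : (Set.range fun k : ℕ => (act T)^[k] x).Finite := by
  classical
  let E : IntermediateField F (AlgebraicClosure F) := IntermediateField.adjoin F (Set.range x)
  have : FiniteDimensional F E := IntermediateField.finiteDimensional_adjoin
    (fun y _ => Algebra.IsIntegral.isIntegral y)
  have : Finite E := Module.finite_of_finite F
  have hE : (Set.pi Set.univ fun _ : Fin n => (E : Set (AlgebraicClosure F))).Finite :=
    Set.Finite.pi fun _ => Set.toFinite _
  refine hE.subset ?_
  rintro _ ⟨k, rfl⟩
  have key : ∀ k : ℕ, ∀ i, ((act T)^[k] x) i ∈ E := by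
    intro k
    induction k with
    | zero =>
      intro i
      exact IntermediateField.subset_adjoin F _ ⟨i, rfl⟩
    | succ k ih =>
      intro i
      rw [Function.iterate_succ_apply']
      show aeval ((act T)^[k] x) (T i) ∈ E
      let y : Fin n → E := fun j => ⟨((act T)^[k] x) j, ih j⟩
      have : aeval ((act T)^[k] x) (T i) = ((aeval y (T i) : E) : AlgebraicClosure F) := by
        have h := MvPolynomial.aeval_algebraMap_apply (AlgebraicClosure F) y (T i)
        exact h
      rw [this]
      exact SetLike.coe_mem _
  intro i _
  exact key k i

/-- If `f` is injective outside of `D`, and `x` has a finite orbit and is not the image of a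
point outside of `D`, then the orbit of `x` meets `D`. -/
theorem exists_mem_of_finite {α : Type*} {f : α → α} {D : Set α} (hf : Set.InjOn f Dᶜ) {x : α}
    (hx : (Set.range fun k : ℕ => f^[k] x).Finite) (hx2 : ∀ y, y ∉ D → f y ≠ x) :
    ∃ k, f^[k] x ∈ D := by
  by_contra hcon
  push Not at hcon
  have hninj : ¬ Function.Injective (fun k : ℕ => f^[k] x) := by
    intro hinj
    exact Set.infinite_range_of_injective hinj hx
  have key : ∀ i j : ℕ, i < j → f^[i] x ≠ f^[j] x := by
    intro i
    induction i with
    | zero =>
      intro j hj h
      obtain ⟨j, rfl⟩ : ∃ l, j = l + 1 := ⟨j - 1, by omega⟩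
      rw [Function.iterate_succ_apply'] at h
      exact hx2 _ (hcon j) h.symm
    | succ i ih =>
      intro j hj h
      obtain ⟨j, rfl⟩ : ∃ l, j = l + 1 := ⟨j - 1, by omega⟩
      rw [Function.iterate_succ_apply', Function.iterate_succ_apply'] at h
      exact ih j (by omega) (hf (hcon i) (hcon j) h)
  apply hninj
  intro i j h
  rcases lt_trichotomy i j with h1 | h1 | h1
  · exact absurd h (key i j h1)
  · exact h1
  · exact absurd h.symm (key j i h1)

end Pool.Agent.X296
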