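import Mathlib

/-!
# The k-dimension of ordinal sums of antichains with two or three elements
-/

set_option autoImplicit false

namespace Pool.Agent.X296.KDim

open Finset

/-- An embedding of a weak order whose blocks have at most three elements. -/
lemma embed_of {P : Type*} [PartialOrder P] (pos st : P → ℕ) (n t k : ℕ)
    (hinj : Function.Injective pos) (h1 : ∀ x, st x ≤ pos x) (h2 : ∀ x, pos x < st x + 3)
    (h3 : ∀ x y, st x < st y → pos x < st y) (h4 : ∀ x y, x ≤ y ↔ x = y ∨ st x < st y)
    (h5 : ∀ x, pos x < n) (ht : 3 ≤ t) (hn : n ≤ t * (k - 1)) (hk : 1 ≤ k) :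
    Nonempty (P ↪o (Fin t → Fin k)) := by
  classical
  let g : P → ℕ → ℕ := fun x c => ((insert (pos x) (range (st x))).filter (fun i => i % t = c)).card
  have hlt : ∀ x c, g x c < k := by
    intro x c
    have hs : ((insert (pos x) (range (st x))).filter (fun i => i % t = c)).card ≤ (range (k - 1)).card := by
      refine Finset.card_le_card_of_injOn (fun i => i / t) ?_ ?_
      · intro i hi
        simp only [coe_filter, mem_insert, mem_range, Set.mem_ofPred_eq] at hi
        have : i < n := by
          rcases hi.1 with rfl | h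
          · exact h5 x
          · have := h1 x; have := h5 x; omega
        simp only [coe_range, Set.mem_Iio]
        exact Nat.div_lt_of_lt_mul (this.trans_le hn)
      · intro i hi j hj hij
        simp only [coe_filter, mem_insert, mem_range, Set.mem_ofPred_eq] at hi hj
        have e1 := Nat.div_add_mod i t
        have e2 := Nat.div_add_mod j t
        simp only at hij
        rw [← e1, ← e2, hij, hi.2, hj.2]
    simp only [card_range] at hs
    show ((insert (pos x) (range (st x))).filter (fun i => i % t = c)).card < k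
    omega
  have hle : ∀ x y, st x < st y → ∀ c, g x c ≤ ((range (st y)).filter (fun i => i % t = c)).card := by
    intro x y hxy c
    refine Finset.card_le_card (Finset.filter_subset_filter _ ?_)
    intro i hi
    simp only [mem_insert, mem_range] at hi ⊢
    rcases hi with rfl | h
    · exact h3 x y hxy
    · omega
  have hle2 : ∀ y c, ((range (st y)).filter (fun i => i % t = c)).card ≤ g y c := by
    intro y c
    exact Finset.card_le_card (Finset.filter_subset_filter _ (Finset.subset_insert _ _))
  have hnot : ∀ y, pos y ∉ range (st y) := by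
    intro y h
    have := h1 y
    simp only [mem_range] at h
    omega
  have hval : ∀ y, g y (pos y % t) = ((range (st y)).filter (fun i => i % t = pos y % t)).card + 1 := by
    intro y
    show ((insert (pos y) (range (st y))).filter (fun i => i % t = pos y % t)).card = _
    rw [Finset.filter_insert, if_pos rfl, Finset.card_insert_of_notMem]
    simp only [mem_filter, not_and]
    intro h
    exact absurd h (hnot y)
  have hval2 : ∀ x y, st x = st y → x ≠ y →
      g y (pos x % t) = ((range (st x)).filter (fun i => i % t = pos x % t)).card := by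
    intro x y hst hxy
    show ((insert (pos y) (range (st y))).filter (fun i => i % t = pos x % t)).card = _
    rw [Finset.filter_insert, if_neg, hst]
    intro h
    have hne : pos x ≠ pos y := fun h => hxy (hinj h)
    have a1 := h1 x; have a2 := h1 y; have a3 := h2 x; have a4 := h2 y
    have e1 := Nat.div_add_mod (pos x) t
    have e2 := Nat.div_add_mod (pos y) t
    rw [h] at e2
    rcases lt_trichotomy (pos x / t) (pos y / t) with hd | hd | hd
    · have : t * (pos x / t) + t ≤ t * (pos y / t) := by
        calc t * (pos x / t) + t = t * (pos x / t + 1) := by ring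
          _ ≤ t * (pos y / t) := Nat.mul_le_mul_left _ hd
      omega
    · rw [hd] at e1; omega
    · have : t * (pos y / t) + t ≤ t * (pos x / t) := by
        calc t * (pos y / t) + t = t * (pos y / t + 1) := by ring
          _ ≤ t * (pos x / t) := Nat.mul_le_mul_left _ hd
      omega
  have key : ∀ x y, (∀ c : Fin t, g x c ≤ g y c) ↔ x ≤ y := by
    intro x y
    rw [h4]
    constructor
    · intro h
      by_contra hcon
      push Not at hcon
      obtain ⟨hne, hst⟩ := hcon
      have ht0 : 0 < t := by omega
      rcases hst.lt_or_eq with hst | hst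
      · have h6 := h ⟨pos x % t, Nat.mod_lt _ ht0⟩
        simp only at h6
        rw [hval x] at h6
        have h7 := hle y x hst (pos x % t)
        omega
      · have h6 := h ⟨pos x % t, Nat.mod_lt _ ht0⟩
        simp only at h6
        rw [hval x, hval2 x y hst.symm hne] at h6
        omega
    · rintro (rfl | h) c
      · exact le_rfl
      · exact (hle x y h c).trans (hle2 y c)
  have hinj' : Function.Injective (fun x : P => fun c : Fin t => (⟨g x c, hlt x c⟩ : Fin k)) := by
    intro x y hxy
    have h6 : ∀ c : Fin t, g x c = g y c := fun c => congrArg Fin.val (congrFun hxy c)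
    exact le_antisymm ((key x y).1 fun c => (h6 c).le) ((key y x).1 fun c => (h6 c).ge)
  exact ⟨⟨⟨_, hinj'⟩, by
    intro x y
    rw [← key x y]
    rfl⟩⟩

/-- the highest values of the first `j` elements -/
def top {n t k : ℕ} (φ : Fin n → Fin t → Fin k) (j : ℕ) (c : Fin t) : ℕ :=
  (univ.filter (fun x : Fin n => x.1 < j)).sup (fun x => (φ x c).1)

lemma le_top {n t k : ℕ} (φ : Fin n → Fin t → Fin k) (j : ℕ) (c : Fin t) (x : Fin n)
    (hx : x.1 < j) : (φ x c).1 ≤ top φ j c :=
  Finset.le_sup (f := fun x => (φ x c).1) (by simp [hx])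

lemma top_le {n t k : ℕ} (φ : Fin n → Fin t → Fin k) (j : ℕ) (c : Fin t) (b : ℕ)
    (h : ∀ x : Fin n, x.1 < j → (φ x c).1 ≤ b) : top φ j c ≤ b := by
  refine Finset.sup_le fun x hx => h x ?_
  simpa using hx

/-- A block of two or three elements raises the sum of the highest values by its size. -/
lemma step {n t k : ℕ} (φ : Fin n → Fin t → Fin k) (s r : ℕ) (hr : r = 2 ∨ r = 3) (hn : s + r ≤ n)
    (hlow : ∀ x y : Fin n, x.1 < s → s ≤ y.1 → y.1 < s + r → φ x ≤ φ y)
    (hanti : ∀ x y : Fin n, s ≤ x.1 → x.1 < s + r → s ≤ y.1 → y.1 < s + r → φ x ≤ φ y → x = y) :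
    (∑ c, top φ s c) + r ≤ ∑ c, top φ (s + r) c := by
  classical
  have hb : ∀ (y : Fin n), s ≤ y.1 → y.1 < s + r → ∀ c, top φ s c ≤ (φ y c).1 := by
    intro y h1 h2 c
    exact top_le φ s c _ fun x hx => hlow x y hx h1 h2 c
  have hu : ∀ (y : Fin n), y.1 < s + r → ∀ c, (φ y c).1 ≤ top φ (s + r) c := fun y h c =>
    le_top φ (s + r) c y h
  let x0 : Fin n := ⟨s, by omega⟩
  let x1 : Fin n := ⟨s + 1, by omega⟩
  have h0 : s ≤ x0.1 ∧ x0.1 < s + r := by constructor <;> simp only [x0] <;> omega
  have h1 : s ≤ x1.1 ∧ x1.1 < s + r := by constructor <;> simp only [x1] <;> omega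
  have hne : x0 ≠ x1 := by simp [x0, x1, Fin.ext_iff]
  have hn01 : ¬ φ x0 ≤ φ x1 := fun h => hne (hanti _ _ h0.1 h0.2 h1.1 h1.2 h)
  have hn10 : ¬ φ x1 ≤ φ x0 := fun h => hne (hanti _ _ h1.1 h1.2 h0.1 h0.2 h).symm
  rw [Pi.le_def] at hn01 hn10
  push Not at hn01 hn10
  obtain ⟨c, hc⟩ := hn01
  obtain ⟨d, hd⟩ := hn10
  have hc' : (φ x1 c).1 < (φ x0 c).1 := hc
  have hd' : (φ x0 d).1 < (φ x1 d).1 := hd
  have hcd : c ≠ d := by
    rintro rfl
    omega
  have hpt : ∀ e ∈ (univ : Finset (Fin t)), top φ s e + ((if e = c then 1 else 0) + (if e = d then 1 else 0)) ≤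
      top φ (s + r) e := by
    intro e _
    have a0 := hb x0 h0.1 h0.2 e
    have a1 := hb x1 h1.1 h1.2 e
    have b0 := hu x0 h0.2 e
    have b1 := hu x1 h1.2 e
    by_cases e1 : e = c
    · subst e1
      rw [if_pos rfl, if_neg hcd]
      omega
    · by_cases e2 : e = d
      · subst e2
        rw [if_neg e1, if_pos rfl]
        omega
      · rw [if_neg e1, if_neg e2]
        omega
  have hsum : ∑ e, (top φ s e + ((if e = c then 1 else 0) + (if e = d then 1 else 0))) =
      (∑ e, top φ s e) + 2 := by
    rw [Finset.sum_add_distrib, Finset.sum_add_distrib]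
    simp
  have hge : (∑ e, top φ s e) + 2 ≤ ∑ e, top φ (s + r) e := by
    rw [← hsum]
    exact Finset.sum_le_sum hpt
  rcases hr with rfl | rfl
  · exact hge
  · by_contra hcon
    have heq : ∑ e, (top φ s e + ((if e = c then 1 else 0) + (if e = d then 1 else 0))) =
        ∑ e, top φ (s + 3) e := by omega
    have hptw := (Finset.sum_eq_sum_iff_of_le hpt).1 heq
    let x2 : Fin n := ⟨s + 2, by omega⟩
    have h2 : s ≤ x2.1 ∧ x2.1 < s + 3 := by constructor <;> simp only [x2] <;> omega
    have hne2 : x0 ≠ x2 := by simp [x0, x2, Fin.ext_iff]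
    have hne3 : x2 ≠ x1 := by simp [x1, x2, Fin.ext_iff]
    by_cases hbig : (φ x2 c).1 ≤ top φ s c
    · refine hne3 (hanti x2 x1 h2.1 h2.2 h1.1 h1.2 ?_)
      intro e
      show (φ x2 e).1 ≤ (φ x1 e).1
      have a1 := hb x1 h1.1 h1.2 e
      have b2 := hu x2 h2.2 e
      have e3 := hptw e (mem_univ _)
      by_cases e1 : e = c
      · subst e1; omega
      · by_cases e2 : e = d
        · subst e2
          rw [if_neg e1, if_pos rfl] at e3
          have a0 := hb x0 h0.1 h0.2 e
          omega
        · rw [if_neg e1, if_neg e2] at e3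
          omega
    · refine hne2 (hanti x0 x2 h0.1 h0.2 h2.1 h2.2 ?_)
      intro e
      show (φ x0 e).1 ≤ (φ x2 e).1
      have a2 := hb x2 h2.1 h2.2 e
      have b0 := hu x0 h0.2 e
      have e3 := hptw e (mem_univ _)
      by_cases e1 : e = c
      · subst e1
        rw [if_pos rfl, if_neg hcd] at e3
        omega
      · by_cases e2 : e = d
        · subst e2
          rw [if_neg e1, if_pos rfl] at e3
          have b1 := hu x1 h1.2 e
          omega
        · rw [if_neg e1, if_neg e2] at e3
          omega

end Pool.Agent.X296.KDim
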